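import Pool.Agent.W845.DH.Stm

/-! Project DH: crossing on a cycle. -/

set_option autoImplicit false

namespace Pool.Agent.W202.DH.Sep

open Pool.Agent.W845.DH

/-- the position of an element of the cycle of `u` -/
theorem exists_pos {V : Type} [Finite V] {τ : Equiv.Perm V} {u x : V} (h : τ.SameCycle u x) :
    ∃ n : ℕ, 1 ≤ n ∧ (τ ^ n) u = x ∧ ∀ k : ℕ, 1 ≤ k → k < n → (τ ^ k) u ≠ x := by
  classical
  have hex : ∃ n : ℕ, 1 ≤ n ∧ (τ ^ n) u = x := by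
    obtain ⟨i, h1, -, h2⟩ := h.exists_pow_eq''
    exact ⟨i, h1, h2⟩
  refine ⟨Nat.find hex, (Nat.find_spec hex).1, (Nat.find_spec hex).2, fun k hk hk' h' => ?_⟩
  exact Nat.find_min hex hk' ⟨hk, h'⟩

theorem aux {V : Type} [Finite V] [DecidableEq V] {τ : Equiv.Perm V} {u v a b : V} {n k : ℕ}
    (hn : 1 ≤ n) (hv : (τ ^ n) u = v) (hmin : ∀ k : ℕ, 1 ≤ k → k < n → (τ ^ k) u ≠ v)
    (hk : 1 ≤ k) (hkn : k ≤ n) (ha : (τ ^ k) u = a)
    (hb : ∀ j : ℕ, 1 ≤ j → j ≤ n → (τ ^ j) u ≠ b) : ¬ (τ * Equiv.swap u v).SameCycle a b := by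
  have hu : ∀ i : ℕ, 1 ≤ i → i < n → (τ ^ i) u ≠ u := by
    intro i hi hin h
    refine hmin (n - i) (by omega) (by omega) ?_
    rw [← hv]
    conv_rhs => rw [show n = (n - i) + i by omega, pow_add, Equiv.Perm.mul_apply, h]
  have hS : ∀ x, (∃ i : ℕ, 1 ≤ i ∧ i ≤ n ∧ (τ ^ i) u = x) →
      ∃ i : ℕ, 1 ≤ i ∧ i ≤ n ∧ (τ ^ i) u = (τ * Equiv.swap u v) x := by
    rintro x ⟨i, h1, h2, rfl⟩
    rcases h2.lt_or_eq with h3 | h3
    · refine ⟨i + 1, by omega, h3, ?_⟩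
      rw [Equiv.Perm.mul_apply, Equiv.swap_apply_of_ne_of_ne (hu i h1 h3) (hmin i h1 h3), pow_succ',
        Equiv.Perm.mul_apply]
    · subst h3
      refine ⟨1, le_rfl, h1, ?_⟩
      rw [Equiv.Perm.mul_apply, hv, Equiv.swap_apply_right, pow_one]
  have hP : ∀ m : ℕ, ∃ i : ℕ, 1 ≤ i ∧ i ≤ n ∧ (τ ^ i) u = ((τ * Equiv.swap u v) ^ m) a := by
    intro m
    induction m with
    | zero => exact ⟨k, hk, hkn, by simpa using ha⟩
    | succ m ih =>
      rw [pow_succ', Equiv.Perm.mul_apply]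
      exact hS _ ih
  intro h
  obtain ⟨m, -, -, hm⟩ := h.exists_pow_eq''
  obtain ⟨i, h1, h2, h3⟩ := hP m
  exact hb i h1 h2 (h3.trans hm)

open scoped Classical in
theorem sep : S_SEP := by
  intro V _ τ u u' w huu' hw hwu hc hcw
  obtain ⟨q, hq1, hq2, hq3⟩ := exists_pos hc
  choose p hp1 hp2 hp3 using fun i => exists_pos (hcw i)
  have hpq : ∀ i, p i ≠ q := by
    intro i h
    apply (hwu i).2
    rw [← hp2 i, h, hq2]
  have hpp : ∀ i j, i ≠ j → p i ≠ p j := by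
    intro i j hij h
    apply hij
    apply hw
    rw [← hp2 i, h, hp2 j]
  have keyA : ∀ i j, p i < p j → p j < q →
      ∃ i j : Fin 3, i ≠ j ∧ ¬ (τ * Equiv.swap u (w i)).SameCycle u' (w j) := by
    intro i j h1 h2
    refine ⟨j, i, fun h => by rw [h] at h1; omega, fun h => ?_⟩
    refine aux (hp1 j) (hp2 j) (hp3 j) (hp1 i) h1.le (hp2 i) (fun k hk hk' => hq3 k hk (by omega))
      h.symm
  have keyB : ∀ i j, q < p i → p i < p j →
      ∃ i j : Fin 3, i ≠ j ∧ ¬ (τ * Equiv.swap u (w i)).SameCycle u' (w j) := by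
    intro i j h1 h2
    refine ⟨i, j, fun h => by rw [h] at h2; omega, fun h => ?_⟩
    refine aux (hp1 i) (hp2 i) (hp3 i) hq1 h1.le hq2 (fun k hk hk' => hp3 j k hk (by omega))
      h
  have h01 := hpp 0 1 (by decide)
  have h02 := hpp 0 2 (by decide)
  have h12 := hpp 1 2 (by decide)
  have h0 := hpq 0
  have h1 := hpq 1
  have h2 := hpq 2
  have two : ∀ i j : Fin 3, p i ≠ p j → (p i < q ∧ p j < q) ∨ (q < p i ∧ q < p j) →
      ∃ i j : Fin 3, i ≠ j ∧ ¬ (τ * Equiv.swap u (w i)).SameCycle u' (w j) := by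
    intro i j hij h
    rcases h with ⟨h3, h4⟩ | ⟨h3, h4⟩
    · rcases lt_or_gt_of_ne hij with h5 | h5
      · exact keyA i j h5 h4
      · exact keyA j i h5 h3
    · rcases lt_or_gt_of_ne hij with h5 | h5
      · exact keyB i j h3 h5
      · exact keyB j i h4 h5
  rcases lt_or_gt_of_ne h0 with a | a <;> rcases lt_or_gt_of_ne h1 with b | b
  · exact two 0 1 h01 (Or.inl ⟨a, b⟩)
  · rcases lt_or_gt_of_ne h2 with c | c
    · exact two 0 2 h02 (Or.inl ⟨a, c⟩)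
    · exact two 1 2 h12 (Or.inr ⟨b, c⟩)
  · rcases lt_or_gt_of_ne h2 with c | c
    · exact two 1 2 h12 (Or.inl ⟨b, c⟩)
    · exact two 0 2 h02 (Or.inr ⟨a, c⟩)
  · exact two 0 1 h01 (Or.inr ⟨a, b⟩)

end Pool.Agent.W202.DH.Sep
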